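import Pool.Agent.Helper10.SP.GoalsC

/-! # Packet LOCP: every arrow belongs to a map of the pseudogroup -/

open Complex Metric Set Filter Topology MeasureTheory
open scoped ContDiff ComplexConjugate ComplexOrder Manifold

namespace Pool.Agent.Helper58.SP

open Pool.Agent.Helper10.SP
open Pool.Agent.Helper95.Lin Pool.Agent.Helper16.Abund Pool.Agent.Helper92.Orb

universe u v

lemma base_pt {b : ℕ} (z : Cn b) (w : ℂ) : base (pt z w) = z := by
  ext i
  simp [base, pt, Fin.append_left]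

lemma lc_pt {b : ℕ} (z : Cn b) (w : ℂ) : lc (pt z w) = w := by
  simp [lc, pt, Fin.append_right]

lemma pt_base_lc {b : ℕ} (p : Cn (b + 1)) : pt (base p) (lc p) = p := by
  ext i
  refine Fin.addCases (fun i => ?_) (fun i => ?_) i
  · simp [base, pt, Fin.append_left]
  · have : i = 0 := Subsingleton.elim _ _
    subst this
    simp [lc, pt, Fin.append_right]

lemma isLinearMap_base (b : ℕ) : IsLinearMap ℝ (base : Cn (b + 1) → Cn b) :=
  ⟨fun _ _ => rfl, fun _ _ => rfl⟩

lemma isOpen_tubeS {b : ℕ} {U : Set (Cn b)} (hU : IsOpen U) : IsOpen (tubeS U) :=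
  hU.preimage continuous_base

lemma convex_tubeS {b : ℕ} {U : Set (Cn b)} (hU : Convex ℝ U) : Convex ℝ (tubeS U) :=
  hU.is_linear_preimage (isLinearMap_base b)

lemma continuous_lc {b : ℕ} : Continuous (lc : Cn (b + 1) → ℂ) := continuous_apply _

lemma differentiable_base {b : ℕ} : Differentiable ℂ (base : Cn (b + 1) → Cn b) :=
  differentiable_pi.2 fun i => differentiable_apply (Fin.castAdd 1 i)

lemma differentiable_lc {b : ℕ} : Differentiable ℂ (lc : Cn (b + 1) → ℂ) :=
  differentiable_apply (Fin.natAdd b 0)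

lemma differentiableOn_pt {n b : ℕ} {V : Set (Cn n)} {G : Cn n → Cn b} {h : Cn n → ℂ}
    (hG : DifferentiableOn ℂ G V) (hh : DifferentiableOn ℂ h V) :
    DifferentiableOn ℂ (fun p => pt (G p) (h p)) V := by
  rw [differentiableOn_pi] at hG ⊢
  intro i
  refine Fin.addCases (fun i => ?_) (fun i => ?_) i
  · simpa [pt, Fin.append_left] using hG i
  · simpa [pt, Fin.append_right] using hh

lemma prodS_univ {b : ℕ} (U : Set (Cn b)) : prodS U univ = tubeS U := by
  ext x
  simp [prodS, tubeS]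

lemma isOpen_Bd {b N : ℕ} (c : Fin N → Cn b) (r : ℝ) : IsOpen (Bd c r) :=
  isOpen_iUnion fun _ => isOpen_ball

/-- the map `(z, w) ↦ (g z, a z w + β z)` is holomorphic -/
lemma differentiableOn_tri {b : ℕ} {U : Set (Cn b)} {t : Tri b} (ht : t.HolOn U) :
    DifferentiableOn ℂ (fun p : Cn (b + 1) =>
      pt (t.g (base p)) (t.a (base p) * lc p + t.β (base p))) (tubeS U) := by
  have hb : DifferentiableOn ℂ (base : Cn (b + 1) → Cn b) (tubeS U) :=
    differentiable_base.differentiableOn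
  have hm : MapsTo (base : Cn (b + 1) → Cn b) (tubeS U) U := fun _ h => h
  exact differentiableOn_pt (ht.1.comp hb hm)
    (((ht.2.1.comp hb hm).mul differentiable_lc.differentiableOn).add (ht.2.2.comp hb hm))

lemma LMap.spec {b N : ℕ} {G : Type u} {M : Type v} [Group G] [MulAction G M]
    [TopologicalSpace M] [ChartedSpace (Fin (b + 1) → ℂ) M] {v : M → ℝ} {c : Fin N → Cn b}
    {R : ℝ} {E : Cn (b + 1) → M} {Φ : Cn b → ℝ} (hL : LMap G v c R E Φ) :
    Spec v (Bd c R) univ E Φ := by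
  refine ⟨?_, hL.smooth, hL.pos, ?_⟩
  · rw [prodS_univ]
    exact hL.par
  · rw [prodS_univ]
    exact hL.pot

theorem locp (hPARB : S_PARB.{u, v}) (hIDM : S_IDM.{v}) (hTRS : S_TRS.{u, v}) :
    S_LOCP.{u, v} := by
  intro b N G M _ _ _ _ _ _ h v hD c R E Φ hL γ x y hR
  obtain ⟨hx, hy, hxy⟩ := hR
  have hS := LMap.spec hL
  obtain ⟨ρ, hρ, t, hU, -, hol, hyeq, hpr, hlast⟩ := hTRS hD (Bd c R) (Bd c R) univ univ E E Φ Φ
    (isOpen_Bd c R) (isOpen_Bd c R) isOpen_univ isOpen_univ hS hS γ x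
    (by rw [prodS_univ]; exact hx) y (by rw [prodS_univ]; exact hy) hxy
  set V : Set (Cn (b + 1)) := tubeS (ball (base x) ρ) with hV
  have hVo : IsOpen V := isOpen_tubeS isOpen_ball
  have hVc : IsPreconnected V := (convex_tubeS (convex_ball (base x) ρ)).isPreconnected
  have hVs : V ⊆ tubeS (Bd c R) := fun p hp => hU hp
  have hf : HoloOn (b + 1) (fun p => γ • E p) V := by
    have h1 := ((hPARB hD).2.1 γ (tubeS (Bd c R)) E hL.par).1.1
    exact ⟨hVo, h1.2.mono hVs⟩
  have hT : DifferentiableOn ℂ (fun p : Cn (b + 1) =>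
      pt (t.g (base p)) (t.a (base p) * lc p + t.β (base p))) V := differentiableOn_tri hol
  have hmT : MapsTo (fun p : Cn (b + 1) =>
      pt (t.g (base p)) (t.a (base p) * lc p + t.β (base p))) V (tubeS (Bd c R)) := by
    intro p hp
    show base (pt _ _) ∈ Bd c R
    rw [base_pt]
    exact (hpr (base p) hp).1
  have hf' : HoloOn (b + 1) (fun p : Cn (b + 1) =>
      E (pt (t.g (base p)) (t.a (base p) * lc p + t.β (base p)))) V :=
    ⟨hVo, hL.par.1.2.comp hT.mdifferentiableOn hmT⟩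
  have hev : (fun p => γ • E p) =ᶠ[𝓝 x] fun p : Cn (b + 1) =>
      E (pt (t.g (base p)) (t.a (base p) * lc p + t.β (base p))) := by
    have e1 : ∀ᶠ p in 𝓝 x, base p ∈ ball (base x) ρ :=
      (continuous_base.continuousAt (x := x)).eventually (isOpen_ball.mem_nhds (mem_ball_self hρ))
    have e2 : ∀ᶠ p in 𝓝 x, lc p ∈ ball (lc x) ρ :=
      (continuous_lc.continuousAt (x := x)).eventually (isOpen_ball.mem_nhds (mem_ball_self hρ))
    filter_upwards [e1, e2] with p h1 h2
    have h3 := (hlast (base p) h1 (lc p) h2).2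
    rw [pt_base_lc] at h3
    exact h3
  have hEq := hIDM V _ _ hVc hf hf' x (mem_ball_self hρ) hev
  refine ⟨ρ, hρ, t, ⟨isOpen_ball, hU, hol, fun z hz => ⟨(hpr z hz).1, (hpr z hz).2.1⟩, ?_⟩, hyeq⟩
  intro z hz w
  have hp : pt z w ∈ V := by
    show base (pt z w) ∈ ball (base x) ρ
    rw [base_pt]
    exact hz
  have h4 := hEq hp
  simp only [base_pt, lc_pt] at h4
  refine ⟨hVs hp, ?_, h4⟩
  have h5 := hmT hp
  simp only [base_pt, lc_pt] at h5
  exact h5

end Pool.Agent.Helper58.SP
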