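import Pool.Agent.Helper10.SP.GoalsE
import Pool.Agent.Helper19.Lin.IDT
import Pool.Agent.Helper27.Lin.Montel
import Pool.Agent.Helper58.SP.LOCP

/-! # Packet NCV: near the identity on a small ball implies near the identity on larger balls -/

open Complex Metric Set Filter Topology MeasureTheory
open scoped ContDiff ComplexConjugate

namespace Pool.Agent.Helper58.SP

open Pool.Agent.Helper10.SP
open Pool.Agent.Helper95.Lin Pool.Agent.Helper16.Abund

lemma norm_base_le {b : ℕ} (p : Cn (b + 1)) : ‖base p‖ ≤ ‖p‖ := by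
  rw [pi_norm_le_iff_of_nonneg (norm_nonneg _)]
  intro i
  exact norm_le_pi_norm p (Fin.castAdd 1 i)

lemma norm_lc_le {b : ℕ} (p : Cn (b + 1)) : ‖lc p‖ ≤ ‖p‖ := norm_le_pi_norm p _

lemma norm_pt_le {b : ℕ} {z : Cn b} {w : ℂ} {B : ℝ} (hB : 0 ≤ B) (hz : ‖z‖ ≤ B) (hw : ‖w‖ ≤ B) :
    ‖pt z w‖ ≤ B := by
  rw [pi_norm_le_iff_of_nonneg hB]
  intro i
  refine Fin.addCases (fun i => ?_) (fun i => ?_) i
  · simp only [pt, Fin.append_left]
    exact (norm_le_pi_norm z i).trans hz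
  · simp only [pt, Fin.append_right]
    exact hw

lemma pt_sub {b : ℕ} (z z' : Cn b) (w w' : ℂ) : pt z w - pt z' w' = pt (z - z') (w - w') := by
  ext i
  refine Fin.addCases (fun i => ?_) (fun i => ?_) i
  · simp [pt, Fin.append_left]
  · simp [pt, Fin.append_right]

/-- uniform bounds for `Big` maps -/
lemma big_bdd {b N : ℕ} {c : Fin N → Cn b} {R : ℝ} {P : Set (Cn b) → Tri b → Prop}
    {Φ : Cn b → ℝ} {C : ℝ} (h : AFol c R P Φ C) (i : Fin N) :
    ∃ B : ℝ, 0 ≤ B ∧ ∀ t, Big c P i t → ∀ z ∈ ball (c i) 4, ‖t.g z‖ ≤ B ∧ ‖t.a z‖ ≤ B := by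
  have hC : 0 ≤ C := by linarith [h.Cge]
  obtain ⟨M, hM⟩ : ∃ M : ℝ, ∀ j, ‖c j‖ ≤ M :=
    ⟨∑ j, ‖c j‖, fun j => Finset.single_le_sum (f := fun j => ‖c j‖)
      (fun j _ => norm_nonneg _) (Finset.mem_univ j)⟩
  have hM0 : 0 ≤ M := (norm_nonneg _).trans (hM i)
  refine ⟨M + 2 + 8 * C, by linarith, fun t ht z hz => ?_⟩
  obtain ⟨hP, z₀, hz₀, hz₀g⟩ := ht
  have hz₀4 : z₀ ∈ ball (c i) 4 := ball_subset_ball (by norm_num) hz₀
  have h1 := h.lip i t ⟨hP, z₀, hz₀, hz₀g⟩ z hz z₀ hz₀4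
  have h2 : ‖z - z₀‖ ≤ 8 := by
    rw [← dist_eq_norm]
    have := dist_triangle_right z z₀ (c i)
    rw [mem_ball] at hz hz₀
    linarith
  obtain ⟨j, hj⟩ := mem_iUnion.1 hz₀g
  have h3 : ‖t.g z₀‖ ≤ M + 2 := by
    rw [mem_ball, dist_eq_norm] at hj
    have := norm_le_norm_add_norm_sub' (t.g z₀) (c j)
    linarith [hM j]
  have h4 := norm_le_norm_add_norm_sub' (t.g z) (t.g z₀)
  have h5 : C * ‖z - z₀‖ ≤ C * 8 := mul_le_mul_of_nonneg_left h2 hC
  refine ⟨by linarith, ?_⟩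
  have h6 := (h.abd i t ⟨hP, z₀, hz₀, hz₀g⟩ z hz).1
  linarith

theorem ncv : S_NCV := by
  intro b N c R P Φ C h i x ρ₀ hρ₀ hxi ρ hρ ε hε
  by_contra hcon
  push Not at hcon
  have hseq : ∀ n : ℕ, ∃ t, Big c P i t ∧
      (∀ z ∈ ball x ρ₀, ‖t.g z - z‖ ≤ 1 / ((n : ℝ) + 1) ∧ ‖t.a z - 1‖ ≤ 1 / ((n : ℝ) + 1)) ∧
      ∃ z ∈ ball (c i) ρ, (‖t.g z - z‖ ≤ ε → ε < ‖t.a z - 1‖) := by
    intro n
    obtain ⟨t, h1, h2, h3⟩ := hcon (1 / ((n : ℝ) + 1)) (by positivity)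
    exact ⟨t, h1, h2, h3⟩
  choose t hB hnear z hz hfar using hseq
  obtain ⟨B, hB0, hBB⟩ := big_bdd h i
  set f : ℕ → Cn b → Cn (b + 1) := fun n z => pt ((t n).g z) ((t n).a z) with hf
  have hfd : ∀ n, DifferentiableOn ℂ (f n) (ball (c i) 4) := by
    intro n
    obtain ⟨-, -, h1, h2, -, -⟩ := h.holo _ _ (hB n).1
    exact differentiableOn_pt h1 h2
  obtain ⟨φ, hφ, F, hF, hlim⟩ := _root_.Helper27.LinMontel.montel (ball (c i) 4) isOpen_ball f hfd
    (fun K hK _ => ⟨B, fun k z hz => norm_pt_le hB0 (hBB _ (hB k) z (hK hz)).1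
      (hBB _ (hB k) z (hK hz)).2⟩)
  have hFx : ∀ z ∈ ball x ρ₀, F z = pt z 1 := by
    intro z hz
    have hz4 := hxi hz
    have t1 : Tendsto (fun k => f (φ k) z) atTop (𝓝 (F z)) := by
      rw [Metric.tendsto_atTop']
      intro δ hδ
      have h1 := hlim {z} (singleton_subset_iff.2 hz4) isCompact_singleton (δ / 2) (half_pos hδ)
      obtain ⟨n, hn⟩ := eventually_atTop.1 h1
      refine ⟨n, fun k hk => ?_⟩
      rw [dist_eq_norm]
      exact lt_of_le_of_lt (hn k hk.le z rfl) (half_lt_self hδ)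
    have t2 : Tendsto (fun k => f (φ k) z) atTop (𝓝 (pt z 1)) := by
      rw [tendsto_iff_norm_sub_tendsto_zero]
      refine squeeze_zero (fun k => norm_nonneg _) (g := fun k => 1 / ((φ k : ℝ) + 1)) ?_ ?_
      · intro k
        rw [hf]
        simp only []
        rw [pt_sub]
        exact norm_pt_le (by positivity) (hnear (φ k) z hz).1 (hnear (φ k) z hz).2
      · exact tendsto_one_div_add_atTop_nhds_zero_nat.comp hφ.tendsto_atTop
    exact tendsto_nhds_unique t1 t2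
  have hFall : ∀ z ∈ ball (c i) 4, F z = pt z 1 := by
    have hx4 : x ∈ ball (c i) 4 := hxi (mem_ball_self hρ₀)
    have hd : DifferentiableOn ℂ (fun z : Cn b => F z - pt z 1) (ball (c i) 4) :=
      hF.sub (differentiableOn_pt differentiableOn_id (differentiableOn_const _))
    have := _root_.Pool.Agent.Helper19.Lin.idt (ball (c i) 4) isOpen_ball
      (convex_ball _ _).isPreconnected _ hd x hx4 (by
        filter_upwards [ball_mem_nhds x hρ₀] with z hz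
        rw [hFx z hz, sub_self])
    intro z hz
    exact sub_eq_zero.1 (this z hz)
  obtain ⟨n, hn⟩ := eventually_atTop.1 (hlim (closedBall (c i) ρ)
    (closedBall_subset_ball hρ) (isCompact_closedBall _ _) ε hε)
  have h1 := hn n le_rfl (z (φ n)) (ball_subset_closedBall (hz (φ n)))
  rw [hFall _ (ball_subset_ball hρ.le (hz (φ n))), hf] at h1
  simp only [] at h1
  rw [pt_sub] at h1
  have h2 := norm_base_le (pt ((t (φ n)).g (z (φ n)) - z (φ n)) ((t (φ n)).a (z (φ n)) - 1))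
  have h3 := norm_lc_le (pt ((t (φ n)).g (z (φ n)) - z (φ n)) ((t (φ n)).a (z (φ n)) - 1))
  rw [base_pt] at h2
  rw [lc_pt] at h3
  have h4 := hfar (φ n) (h2.trans h1)
  linarith

end Pool.Agent.Helper58.SP
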