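import Pool.Agent.Helper10.SP.GoalsI
import Pool.Agent.Helper10.Lin.PhDiv
import Pool.Agent.Helper59.SP.WCH

/-! # Packet SP-PIO: the Piola identity -/

open Complex Metric Set Filter Topology MeasureTheory
open scoped ContDiff ComplexConjugate ComplexOrder Manifold Matrix

namespace Pool.Agent.Helper58.SP

open Pool.Agent.Helper95.Lin Pool.Agent.Helper16.Abund Pool.Agent.Helper92.Orb
open Pool.Agent.Helper10.SP Pool.Agent.Helper22.Lin

/-- On holomorphic functions `cd` is twice the complex derivative. -/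
theorem cd_holo {n : ℕ} {U : Set (Cn n)} (hU : IsOpen U) {f : Cn n → ℂ}
    (hf : DifferentiableOn ℂ f U) {x : Cn n} (hx : x ∈ U) (l : Fin n) :
    cd l f x = 2 * fderiv ℂ f x (Pi.single l 1) := by
  have hd : DifferentiableAt ℂ f x := hf.differentiableAt (hU.mem_nhds hx)
  have h1 : fderiv ℝ f x = (fderiv ℂ f x).restrictScalars ℝ := hd.fderiv_restrictScalars ℝ
  unfold cd
  rw [h1]
  simp only [ContinuousLinearMap.coe_restrictScalars']
  rw [Pool.Agent.Helper59.SP.single_I, map_smul, smul_eq_mul]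
  linear_combination (-(fderiv ℂ f x (Pi.single l 1))) * Complex.I_sq

theorem cd_congr_nhds {n : ℕ} {f g : Cn n → ℂ} {x : Cn n} (h : f =ᶠ[𝓝 x] g) (l : Fin n) :
    cd l f x = cd l g x := by
  unfold cd
  rw [h.fderiv_eq]

theorem cd_mulp {n : ℕ} {f g : Cn n → ℂ} {x : Cn n} (hf : DifferentiableAt ℝ f x)
    (hg : DifferentiableAt ℝ g x) (l : Fin n) :
    cd l (fun y => f y * g y) x = f x * cd l g x + g x * cd l f x := by
  unfold cd
  rw [fderiv_fun_mul hf hg]
  simp only [add_apply, smul_apply, smul_eq_mul]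
  ring

theorem cd_sump {n : ℕ} {ι : Type*} (s : Finset ι) {f : ι → Cn n → ℂ} {x : Cn n}
    (hf : ∀ i ∈ s, DifferentiableAt ℝ (f i) x) (l : Fin n) :
    cd l (fun y => ∑ i ∈ s, f i y) x = ∑ i ∈ s, cd l (f i) x := by
  unfold cd
  rw [fderiv_fun_sum hf]
  simp only [sum_apply, Finset.mul_sum]
  rw [← Finset.sum_sub_distrib]

theorem cd_constmul {n : ℕ} {f : Cn n → ℂ} {x : Cn n} (c : ℂ) (hf : DifferentiableAt ℝ f x)
    (l : Fin n) : cd l (fun y => c * f y) x = c * cd l f x := by
  rw [cd_mulp (differentiableAt_const c) hf]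
  have : cd l (fun _ : Cn n => c) x = 0 := by
    unfold cd
    simp
  rw [this]
  ring

theorem diffOn_prod {n m : ℕ} {U : Set (Cn n)} {f : Fin m → Cn n → ℂ}
    (hf : ∀ i, DifferentiableOn ℂ (f i) U) : DifferentiableOn ℂ (fun y => ∏ i, f i y) U := by
  have h : ∀ s : Finset (Fin m), DifferentiableOn ℂ (fun y => ∏ i ∈ s, f i y) U := by
    intro s
    induction s using Finset.induction_on with
    | empty => simp
    | insert a s ha ih =>
      have h1 : (fun y => ∏ i ∈ insert a s, f i y) = fun y => f a y * ∏ i ∈ s, f i y := by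
        funext y
        rw [Finset.prod_insert ha]
      rw [h1]
      exact (hf a).mul ih
  exact h Finset.univ

theorem pio (hWIRT : S_WIRT) (hWCH : S_WCH) : S_PIO := by
  intro n U U' g hU hU' hg hm hdet Y Z hY hZ hYZ x hx
  set H : Cn n → Matrix (Fin n) (Fin n) ℂ :=
    fun y => Matrix.of fun k r => fderiv ℂ g y (Pi.single k 1) r with hH
  have hHa : ∀ y k r, H y k r = fderiv ℂ g y (Pi.single k 1) r := fun y k r => rfl
  have hDg := holo_fderiv hU hg
  have hHh : ∀ k r, DifferentiableOn ℂ (fun y => H y k r) U := by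
    intro k r y hy
    have h1 := hDg y hy
    have h2 : DifferentiableWithinAt ℂ (fun z => fderiv ℂ g z (Pi.single k 1)) U y :=
      h1.clm_apply (differentiableWithinAt_const _)
    exact differentiableWithinAt_pi.1 h2 r
  have hHs : ∀ k r, ContDiffOn ℝ ∞ (fun y => H y k r) U :=
    fun k r => holo_contDiffOn_real hU (hHh k r)
  have hdiff : ∀ {f : Cn n → ℂ}, ContDiffOn ℝ ∞ f U → DifferentiableAt ℝ f x := by
    intro f hf
    exact (hf.contDiffAt (hU.mem_nhds hx)).differentiableAt (by simp)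
  have hHdet : ∀ y, (H y).det = (fderiv ℂ g y).det := by
    intro y
    have h1 : (fderiv ℂ g y).det =
        (LinearMap.toMatrix' (fderiv ℂ g y : Cn n →ₗ[ℂ] Cn n)).det :=
      (LinearMap.det_toMatrix' _).symm
    rw [h1, ← Matrix.det_transpose]
    congr 1
  -- components of `g`
  have hgr : ∀ r, DifferentiableOn ℂ (fun y => g y r) U := by
    intro r y hy
    exact differentiableWithinAt_pi.1 (hg y hy) r
  have hcdg : ∀ r l, ∀ y ∈ U, cd l (fun z => g z r) y = 2 * H y l r := by
    intro r l y hy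
    rw [cd_holo hU (hgr r) hy]
    congr 1
    rw [hHa]
    have hd : DifferentiableAt ℂ g y := hg.differentiableAt (hU.mem_nhds hy)
    have h1 : HasFDerivAt (fun z => g z r)
        ((ContinuousLinearMap.proj r : (Cn n) →L[ℂ] ℂ).comp (fderiv ℂ g y)) y :=
      (ContinuousLinearMap.proj r : (Cn n) →L[ℂ] ℂ).hasFDerivAt.comp y hd.hasFDerivAt
    rw [h1.fderiv]
    rfl
  have hcl : ∀ i j l, cd l (fun y => H y i j) x = cd i (fun y => H y l j) x := by
    intro i j l
    have hs := holo_contDiffOn_real hU (hgr j)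
    have h1 := ((hWIRT U hU (fun y => g y j) (fun y => g y j) hs hs).2.2.2.2.1 l i x hx).1
    have h2 : ∀ m, cd m (fun y => g y j) =ᶠ[𝓝 x] fun y => 2 * H y m j := by
      intro m
      filter_upwards [hU.mem_nhds hx] with y hy using hcdg j m y hy
    rw [cd_congr_nhds (h2 i), cd_congr_nhds (h2 l), cd_constmul 2 (hdiff (hHs i j)),
      cd_constmul 2 (hdiff (hHs l j))] at h1
    exact mul_left_cancel₀ two_ne_zero h1
  have hdiv : ∀ k, ∑ j, cd j (fun y => (H y).adjugate k j) x = 0 := fun k =>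
    Pool.Agent.Helper10.Lin.div_adj H (fun i j => hdiff (hHs i j)) hcl k
  have hadj : ∀ r k, ContDiffOn ℝ ∞ (fun y => (H y).adjugate r k) U := fun r k =>
    Pool.Agent.Helper10.Lin.adj_contDiffOn U H hHs r k
  have hJh : DifferentiableOn ℂ (fun y => (H y).det) U := by
    simp only [Matrix.det_apply']
    refine DifferentiableOn.fun_sum fun σ _ => ?_
    refine (differentiableOn_const _).mul ?_
    exact diffOn_prod fun i => hHh (σ i) i
  have hJs : ContDiffOn ℝ ∞ (fun y => (H y).det) U := holo_contDiffOn_real hU hJh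
  have hcJ : ∀ k, cd k (fun y => conj (H y).det) x = 0 := by
    intro k
    have h1 := hWIRT U hU (fun y => (H y).det) (fun y => (H y).det) hJs hJs
    rw [(h1.2.2.2.1 k x hx).1, h1.2.2.2.2.2.2 hJh k x hx, map_zero]
  have hcJs : ContDiffOn ℝ ∞ (fun y => conj (H y).det) U :=
    conjCLE.contDiff.comp_contDiffOn hJs
  -- formula for `Z`
  have hZf : ∀ y ∈ U, ∀ k, Z y k = conj (H y).det * ∑ r, (H y).adjugate r k * Y (g y) r := by
    intro y hy k
    have hJ0 : (H y).det ≠ 0 := by rw [hHdet]; exact hdet y hy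
    have h1 : fderiv ℂ g y (Z y) = (Z y) ᵥ* (H y) := by
      have h2 : Z y = ∑ j, Z y j • (Pi.single j (1 : ℂ) : Cn n) := by
        ext i
        simp [Finset.sum_apply, Pi.single_apply]
      conv_lhs => rw [h2]
      rw [map_sum]
      ext r
      rw [Finset.sum_apply]
      simp only [map_smul, Pi.smul_apply, smul_eq_mul, Matrix.vecMul, dotProduct, hHa]
    have h3 := hYZ y hy
    rw [h1, ← hHdet] at h3
    have h4 : ((Z y) ᵥ* (H y)) ᵥ* (H y).adjugate = (H y).det • Z y := by
      rw [Matrix.vecMul_vecMul, Matrix.mul_adjugate, Matrix.vecMul_smul, Matrix.vecMul_one]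
    rw [h3, Matrix.smul_vecMul] at h4
    have h5 := congrFun h4 k
    simp only [Pi.smul_apply, smul_eq_mul, Matrix.vecMul, dotProduct] at h5
    have h6 : (((‖(H y).det‖ ^ 2 : ℝ)) : ℂ) = (H y).det * conj (H y).det := by
      rw [Complex.mul_conj']
      push_cast
      rfl
    rw [h6] at h5
    have h7 : (H y).det * Z y k =
        (H y).det * (conj (H y).det * ∑ r, (H y).adjugate r k * Y (g y) r) := by
      rw [← h5]
      rw [mul_assoc]
      congr 2
      exact Finset.sum_congr rfl fun r _ => mul_comm _ _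
    exact mul_left_cancel₀ hJ0 h7
  have hYr : ∀ r, ContDiffOn ℝ ∞ (fun y => Y y r) U' := fun r => (contDiffOn_pi.1 hY) r
  have hgs : ContDiffOn ℝ ∞ g U := holo_contDiffOn_real hU hg
  have hYg : ∀ r, ContDiffOn ℝ ∞ ((fun y => Y y r) ∘ g) U := fun r => (hYr r).comp hgs hm
  have hch : ∀ r k, cd k ((fun y => Y y r) ∘ g) x =
      ∑ s, H x k s * cd s (fun y => Y y r) (g x) := by
    intro r k
    exact (((hWCH.1 U' U hU' hU g hg hm).1 (fun y => Y y r) (hYr r)) k x hx).1
  have hk : ∀ k, cd k (fun y => Z y k) x = conj (H x).det * ∑ r,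
      ((H x).adjugate r k * ∑ s, H x k s * cd s (fun y => Y y r) (g x) +
        Y (g x) r * cd k (fun y => (H y).adjugate r k) x) := by
    intro k
    have h1 : (fun y => Z y k) =ᶠ[𝓝 x] fun y => conj (H y).det *
        ∑ r, (H y).adjugate r k * ((fun y => Y y r) ∘ g) y := by
      filter_upwards [hU.mem_nhds hx] with y hy using hZf y hy k
    have h2 : ∀ r ∈ (Finset.univ : Finset (Fin n)), DifferentiableAt ℝ
        (fun y => (H y).adjugate r k * ((fun y => Y y r) ∘ g) y) x := fun r _ =>
      (hdiff (hadj r k)).mul (hdiff (hYg r))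
    rw [cd_congr_nhds h1, cd_mulp (hdiff hcJs) (DifferentiableAt.fun_sum h2), hcJ k, mul_zero,
      add_zero, cd_sump _ h2]
    congr 1
    refine Finset.sum_congr rfl fun r _ => ?_
    rw [cd_mulp (hdiff (hadj r k)) (hdiff (hYg r)), hch r k]
    rfl
  rw [Finset.sum_congr rfl fun k _ => hk k, ← Finset.mul_sum, Finset.sum_comm]
  have hr : ∀ r, ∑ k, ((H x).adjugate r k * ∑ s, H x k s * cd s (fun y => Y y r) (g x) +
        Y (g x) r * cd k (fun y => (H y).adjugate r k) x) =
      (H x).det * cd r (fun y => Y y r) (g x) := by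
    intro r
    rw [Finset.sum_add_distrib, ← Finset.mul_sum, hdiv r, mul_zero, add_zero]
    have h1 : ∑ k, (H x).adjugate r k * ∑ s, H x k s * cd s (fun y => Y y r) (g x) =
        ∑ s, ((H x).adjugate * H x) r s * cd s (fun y => Y y r) (g x) := by
      simp only [Finset.mul_sum, Matrix.mul_apply, Finset.sum_mul]
      rw [Finset.sum_comm]
      refine Finset.sum_congr rfl fun s _ => Finset.sum_congr rfl fun k _ => ?_
      ring
    rw [h1, Matrix.adjugate_mul, Finset.sum_eq_single r]
    · simp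
    · intro s _ hs
      simp [hs.symm]
    · simp
  rw [Finset.sum_congr rfl fun r _ => hr r, ← Finset.mul_sum, ← mul_assoc, ← hHdet]
  congr 1
  rw [mul_comm, Complex.mul_conj']
  push_cast
  rfl

end Pool.Agent.Helper58.SP
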