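import Pool.Agent.Helper10.SP.GoalsT
import Pool.Agent.Helper67.Lin.MOLC

/-! # Packet WEYL: weakly pluriharmonic functions are smooth and pluriharmonic -/

open Complex Metric Set Filter Topology MeasureTheory
open scoped ContDiff ComplexConjugate ComplexOrder Convolution

namespace Pool.Agent.Helper58.SP

open Pool.Agent.Helper10.SP
open Pool.Agent.Helper95.Lin
open Pool.Agent.Helper67.Lin (mol_cont mol_cs mol_contDiff mol_int mol_neg moll_eq moll_local
  moll_nhds ind_int moll_contDiffAt lev_moll lev_congr stmtMOLW stmtMOLC mol_nonneg)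

variable {n : ℕ}

/-- the mollification is symmetric -/
lemma swap_moll {U : Cn n → ℝ} (hU : Integrable U) {ψ : Cn n → ℝ} (hψc : Continuous ψ)
    (hψs : HasCompactSupport ψ) {ε : ℝ} (hε : 0 < ε) :
    ∫ x, (U ⋆[ContinuousLinearMap.mul ℝ ℝ, volume] mol n ε) x * ψ x =
      ∫ y, U y * moll ψ ε y := by
  obtain ⟨C, hC⟩ := (mol_cs (n := n) hε).exists_bound_of_continuous (mol_cont ε)
  have hψi : Integrable ψ := hψc.integrable_of_hasCompactSupport hψs
  have hI : Integrable (fun p : Cn n × Cn n => mol n ε (p.1 - p.2) * (ψ p.1 * U p.2))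
      (volume.prod volume) := by
    refine Integrable.bdd_mul (c := C) (hψi.mul_prod hU) ?_ ?_
    · exact ((mol_cont ε).comp (continuous_fst.sub continuous_snd)).aestronglyMeasurable
    · exact Eventually.of_forall fun p => hC _
  have h1 : ∀ x, (U ⋆[ContinuousLinearMap.mul ℝ ℝ, volume] mol n ε) x * ψ x =
      ∫ y, mol n ε (x - y) * (ψ x * U y) := by
    intro x
    rw [convolution_mul, ← integral_mul_const]
    refine integral_congr_ae (Eventually.of_forall fun y => ?_)
    simp only []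
    ring
  have h2 : ∀ y, U y * moll ψ ε y = ∫ x, mol n ε (x - y) * (ψ x * U y) := by
    intro y
    have e := integral_sub_left_eq_self (fun x => mol n ε (x - y) * (ψ x * U y)) volume y
    rw [← e]
    unfold moll
    rw [← integral_const_mul]
    refine integral_congr_ae (Eventually.of_forall fun t => ?_)
    simp only []
    rw [sub_sub_cancel_left, mol_neg]
    ring
  simp_rw [h1, h2]
  exact integral_integral_swap hI

lemma moll_bdd {ψ : Cn n → ℝ} {C : ℝ} (hC : ∀ x, ‖ψ x‖ ≤ C) {ε : ℝ} (hε : 0 < ε) (y : Cn n) :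
    ‖moll ψ ε y‖ ≤ C := by
  unfold moll
  have hi : Integrable (mol n ε) := (mol_cont ε).integrable_of_hasCompactSupport (mol_cs hε)
  calc ‖∫ t, ψ (y - t) * mol n ε t‖ ≤ ∫ t, C * mol n ε t := by
        refine norm_integral_le_of_norm_le (hi.const_mul C) (Eventually.of_forall fun t => ?_)
        rw [norm_mul, Real.norm_of_nonneg (mol_nonneg hε t)]
        exact mul_le_mul_of_nonneg_right (hC _) (mol_nonneg hε t)
    _ = C := by rw [integral_const_mul, mol_int hε, mul_one]

lemma tendsto_pair {U : Cn n → ℝ} (hU : Integrable U) {ψ : Cn n → ℝ} (hψc : Continuous ψ)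
    (hψs : HasCompactSupport ψ) :
    Tendsto (fun ε : ℝ => ∫ y, U y * moll ψ ε y) (𝓝[>] 0) (𝓝 (∫ y, U y * ψ y)) := by
  obtain ⟨C, hC⟩ := hψs.exists_bound_of_continuous hψc
  have hpos : ∀ᶠ ε in 𝓝[>] (0 : ℝ), 0 < ε := eventually_mem_nhdsWithin
  refine tendsto_integral_filter_of_dominated_convergence (fun y => ‖U y‖ * C) ?_ ?_ ?_ ?_
  · filter_upwards [hpos] with ε hε
    have hc : Continuous (moll ψ ε) := by
      rw [moll_eq]
      exact (mol_cs hε).continuous_convolution_right _ hψc.locallyIntegrable (mol_cont ε)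
    exact hU.aestronglyMeasurable.mul hc.aestronglyMeasurable
  · filter_upwards [hpos] with ε hε
    refine Eventually.of_forall fun y => ?_
    rw [norm_mul]
    exact mul_le_mul_of_nonneg_left (moll_bdd hC hε y) (norm_nonneg _)
  · exact hU.norm.mul_const C
  · refine Eventually.of_forall fun y => ?_
    exact (stmtMOLC ψ y hψc.continuousAt
      ⟨1, one_pos, (hψc.continuousOn.integrableOn_compact (isCompact_closedBall y 1))⟩).const_mul _

lemma ae_local {T : Set (Cn n)} {f : Cn n → ℝ} (hf : ∀ C ⊆ T, IsCompact C → IntegrableOn f C)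
    {x₀ : Cn n} {R : ℝ} (hR : 0 < R) (hT : closedBall x₀ R ⊆ T)
    (hconst : ∀ x ∈ ball x₀ (R / 2), ∀ ε, 0 < ε → ε ≤ R / 2 → moll f ε x = moll f (R / 2) x) :
    ∀ᵐ x, x ∈ ball x₀ (R / 2) → f x = moll f (R / 2) x := by
  set U : Cn n → ℝ := (closedBall x₀ R).indicator f with hU
  have hUi : Integrable U := ind_int hf hT
  have hR2 : 0 < R / 2 := half_pos hR
  have hloc : ∀ x ∈ ball x₀ (R / 2), ∀ ε, 0 < ε → ε ≤ R / 2 →
      moll f ε x = (U ⋆[ContinuousLinearMap.mul ℝ ℝ, volume] mol n ε) x := by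
    intro x hx ε hε hε'
    refine moll_local hε f ?_
    rw [mem_ball_iff_norm] at hx
    linarith
  set G : Cn n → ℝ := (U ⋆[ContinuousLinearMap.mul ℝ ℝ, volume] mol n (R / 2)) with hG
  have hGc : Continuous G :=
    (mol_cs hR2).continuous_convolution_right _ hUi.locallyIntegrable (mol_cont _)
  have key := IsOpen.ae_eq_zero_of_integral_contDiff_smul_eq_zero (μ := (volume : Measure (Cn n)))
    (f := fun x => U x - G x) (isOpen_ball (x := x₀) (ε := R / 2))
    ((hUi.locallyIntegrable.sub hGc.locallyIntegrable).locallyIntegrableOn _) (by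
      intro ψ hψ hψs hψt
      have hψc : Continuous ψ := hψ.continuous
      have hψ0 : ∀ x, x ∉ ball x₀ (R / 2) → ψ x = 0 := by
        intro x hx
        by_contra h
        exact hx (hψt (subset_tsupport _ h))
      have hconstG : ∀ ε, 0 < ε → ε ≤ R / 2 →
          ∫ y, U y * moll ψ ε y = ∫ x, G x * ψ x := by
        intro ε hε hε'
        rw [← swap_moll hUi hψc hψs hε]
        refine integral_congr_ae (Eventually.of_forall fun x => ?_)
        simp only []
        by_cases hx : x ∈ ball x₀ (R / 2)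
        · rw [← hloc x hx ε hε hε', hconst x hx ε hε hε', hloc x hx (R / 2) hR2 le_rfl]
        · rw [hψ0 x hx, mul_zero, mul_zero]
      have hev : (fun ε : ℝ => ∫ y, U y * moll ψ ε y) =ᶠ[𝓝[>] 0] fun _ => ∫ x, G x * ψ x := by
        have hpos : ∀ᶠ ε in 𝓝[>] (0 : ℝ), 0 < ε := eventually_mem_nhdsWithin
        have hlt : ∀ᶠ ε in 𝓝[>] (0 : ℝ), ε < R / 2 :=
          eventually_nhdsWithin_of_eventually_nhds (eventually_lt_nhds hR2)
        filter_upwards [hpos, hlt] with ε h1 h2
        exact hconstG ε h1 h2.le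
      have heq : ∫ y, U y * ψ y = ∫ x, G x * ψ x :=
        tendsto_nhds_unique (tendsto_pair hUi hψc hψs) (tendsto_const_nhds.congr' hev.symm)
      obtain ⟨C, hC⟩ := hψs.exists_bound_of_continuous hψc
      have i1 : Integrable (fun x => ψ x * U x) :=
        Integrable.bdd_mul (c := C) hUi hψc.aestronglyMeasurable (Eventually.of_forall hC)
      have i2 : Integrable (fun x => ψ x * G x) :=
        (hψc.mul hGc).integrable_of_hasCompactSupport hψs.mul_right
      have e : ∀ x, ψ x • (U x - G x) = ψ x * U x - ψ x * G x := by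
        intro x
        rw [smul_eq_mul]
        ring
      simp_rw [e]
      rw [integral_sub i1 i2]
      simp_rw [mul_comm (ψ _)]
      rw [heq, sub_self])
  filter_upwards [key] with x hx hxB
  have h1 := hx hxB
  have h2 : U x = f x := by
    rw [hU, indicator_of_mem]
    exact ball_subset_closedBall.trans (closedBall_subset_closedBall (by linarith)) hxB
  rw [← h2, hloc x hxB (R / 2) hR2 le_rfl]
  linarith

theorem weyl : S_WEYL := by
  intro n T hT f hf hw
  -- local constancy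
  have hloc : ∀ x₀ ∈ T, ∃ R : ℝ, 0 < R ∧ closedBall x₀ R ⊆ T ∧ ∀ x ∈ ball x₀ (R / 2), ∀ ε, 0 < ε →
      ε ≤ R / 2 → moll f ε x = moll f (R / 2) x := by
    intro x₀ hx₀
    obtain ⟨δ, hδ, hδT⟩ := Metric.isOpen_iff.1 hT x₀ hx₀
    set R : ℝ := δ / 4 with hR
    have hRp : 0 < R := by positivity
    have hM' : ball x₀ (2 * R) ⊆ T := (ball_subset_ball (by linarith)).trans hδT
    have h3 : ∀ x ∈ ball x₀ (2 * R), closedBall x R ⊆ T := by
      intro x hx
      refine Subset.trans ?_ hδT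
      refine closedBall_subset_ball' ?_
      rw [mem_ball] at hx
      linarith
    obtain ⟨-, hm⟩ := stmtMOLW T hT f hf hw R hRp (ball x₀ (2 * R)) hM' isOpen_ball h3
    refine ⟨R, hRp, (closedBall_subset_ball (by linarith)).trans hδT, fun x hx ε hε hε' => ?_⟩
    rw [mem_ball] at hx
    refine hm ε (R / 2) hε (half_pos hRp) (by linarith) (by linarith) x ?_ ?_
    · rw [mem_ball]
      linarith
    · refine closedBall_subset_ball' ?_
      linarith
  set g : Cn n → ℝ := fun x => limUnder (𝓝[>] (0 : ℝ)) (fun ε => moll f ε x) with hg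
  have hgeq : ∀ (x : Cn n) (r : ℝ), 0 < r → (∀ ε, 0 < ε → ε ≤ r → moll f ε x = moll f r x) →
      g x = moll f r x := by
    intro x r hr h
    have hpos : ∀ᶠ ε in 𝓝[>] (0 : ℝ), 0 < ε := eventually_mem_nhdsWithin
    have hlt : ∀ᶠ ε in 𝓝[>] (0 : ℝ), ε < r :=
      eventually_nhdsWithin_of_eventually_nhds (eventually_lt_nhds hr)
    refine Tendsto.limUnder_eq (tendsto_const_nhds.congr' ?_)
    filter_upwards [hpos, hlt] with ε h1 h2
    exact (h ε h1 h2.le).symm
  have hgl : ∀ x₀ ∈ T, ∃ R : ℝ, 0 < R ∧ closedBall x₀ R ⊆ T ∧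
      (∀ x ∈ ball x₀ (R / 2), g x = moll f (R / 2) x) ∧
      ∀ᵐ x, x ∈ ball x₀ (R / 2) → f x = moll f (R / 2) x := by
    intro x₀ hx₀
    obtain ⟨R, hR, hRT, hc⟩ := hloc x₀ hx₀
    exact ⟨R, hR, hRT, fun x hx => hgeq x (R / 2) (half_pos hR) (hc x hx),
      ae_local hf hR hRT hc⟩
  have hgn : ∀ x₀ ∈ T, ∃ R : ℝ, 0 < R ∧ closedBall x₀ R ⊆ T ∧ g =ᶠ[𝓝 x₀] moll f (R / 2) := by
    intro x₀ hx₀
    obtain ⟨R, hR, hRT, hc, -⟩ := hgl x₀ hx₀
    refine ⟨R, hR, hRT, ?_⟩
    filter_upwards [ball_mem_nhds x₀ (half_pos hR)] with x hx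
    exact hc x hx
  refine ⟨g, ?_, ?_, ?_⟩
  · intro x₀ hx₀
    obtain ⟨R, hR, hRT, hc⟩ := hgn x₀ hx₀
    have h1 := (moll_contDiffAt hf hRT (half_pos hR)).contDiffAt (x := x₀)
    have h2 := moll_nhds (n := n) (half_pos hR) (show 2 * (R / 2) ≤ R by linarith) f x₀
    exact (h1.congr_of_eventuallyEq (hc.trans h2)).contDiffWithinAt
  · intro x₀ hx₀ e
    obtain ⟨R, hR, hRT, hc⟩ := hgn x₀ hx₀
    rw [lev_congr hc]
    exact lev_moll hf hw hT hRT (half_pos hR) (by linarith) e
  · rw [ae_restrict_iff' hT.measurableSet, ae_iff]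
    refine measure_null_of_locally_null _ fun x₀ hx₀ => ?_
    have hx₀T : x₀ ∈ T := by
      by_contra h
      exact hx₀ fun h' => absurd h' h
    obtain ⟨R, hR, hRT, hc, hae⟩ := hgl x₀ hx₀T
    refine ⟨{x | ¬ (x ∈ T → f x = g x)} ∩ ball x₀ (R / 2),
      inter_mem self_mem_nhdsWithin (mem_nhdsWithin_of_mem_nhds (ball_mem_nhds x₀ (half_pos hR))), ?_⟩
    rw [ae_iff] at hae
    refine measure_mono_null ?_ hae
    rintro x ⟨hx1, hx2⟩ hx3
    apply hx1
    intro _
    rw [hx3 hx2, hc x hx2]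

end Pool.Agent.Helper58.SP
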